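import Pool.Agent.Helper61.LF.Goals

/-!
# PROJECT LF (MP_c65973_gt): the algebra
-/

set_option autoImplicit false

namespace Pool.Agent.Helper61.LF

open Polynomial

universe u

theorem natDegree_bd {k : Type u} [Field k] {P : Type u} [AddCommGroup P] [Module k P]
    (ψ : P →ₗ[k] k[X]) (R : Submodule k P) [Module.Finite k R] :
    ∃ D : ℕ, ∀ p ∈ R, (ψ p).natDegree ≤ D := by
  obtain ⟨s, hs⟩ := (Module.Finite.iff_fg (N := R)).1 inferInstance
  refine ⟨s.sup fun p => (ψ p).natDegree, fun p hp => ?_⟩
  rw [← hs] at hp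
  induction hp using Submodule.span_induction with
  | mem x hx => exact Finset.le_sup (f := fun p => (ψ p).natDegree) (by exact_mod_cast hx)
  | zero => simp
  | add x y _ _ hx hy =>
    rw [map_add]
    exact (natDegree_add_le _ _).trans (max_le hx hy)
  | smul c x _ hx =>
    rw [map_smul]
    exact (natDegree_smul_le _ _).trans hx

theorem algf (hF : S_FIN.{u}) (hP : S_PSI.{u}) (hG : S_GAP.{u}) : S_ALGF.{u} := by
  intro k _ P _ _ τ b z r s R _ hall hinf
  classical
  by_cases hfd : ∀ j < r, Module.Finite k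
      (Submodule.span k (Set.range fun n : ℕ => (τ ^ n) (b j)))
  · set S : Submodule k P :=
      (⨆ j : Fin r, Submodule.span k (Set.range fun n : ℕ => (τ ^ n) (b j))) ⊔
        Submodule.span k (Set.range fun i : Fin s => z i) ⊔ R with hSdef
    haveI h1 : ∀ j : Fin r, Module.Finite k
        (Submodule.span k (Set.range fun n : ℕ => (τ ^ n) (b j))) := fun j => hfd j j.2
    haveI h2 : Module.Finite k (Submodule.span k (Set.range fun i : Fin s => z i)) :=
      Module.Finite.span_of_finite k (Set.finite_range _)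
    haveI h3 : Module.Finite k
        (⨆ j : Fin r, Submodule.span k (Set.range fun n : ℕ => (τ ^ n) (b j)) :
          Submodule k P) := Submodule.finite_iSup _
    haveI hS : Module.Finite k S := inferInstance
    have htop : S = ⊤ := by
      rw [eq_top_iff]
      intro p _
      have hR : R ≤ S := le_sup_right
      rcases hall p with ⟨j, hj, n, hn⟩ | ⟨i, hi, hn⟩
      · have e : p = (τ ^ n) (b j) + (p - (τ ^ n) (b j)) := by abel
        rw [e]
        refine S.add_mem ?_ (hR hn)
        have h5 : (Submodule.span k (Set.range fun n : ℕ => (τ ^ n) (b (⟨j, hj⟩ : Fin r)))) ≤ S :=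
          le_trans (le_iSup (fun j : Fin r =>
            Submodule.span k (Set.range fun n : ℕ => (τ ^ n) (b j))) ⟨j, hj⟩)
            (le_trans le_sup_left le_sup_left)
        exact h5 (Submodule.subset_span ⟨n, rfl⟩)
      · have e : p = z i + (p - z i) := by abel
        rw [e]
        refine S.add_mem ?_ (hR hn)
        have h5 : Submodule.span k (Set.range fun i : Fin s => z i) ≤ S :=
          le_trans le_sup_right le_sup_left
        exact h5 (Submodule.subset_span ⟨⟨i, hi⟩, rfl⟩)
    haveI : Module.Finite k P := by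
      rw [htop] at hS
      exact Module.Finite.equiv (Submodule.topEquiv (R := k) (M := P))
    exact hF k P τ b z r s R hall hinf
  · push Not at hfd
    obtain ⟨j0, hj0, he⟩ := hfd
    obtain ⟨N, ψ, heN, hRN, hτN, hψ, hψe⟩ := hP k P τ (b j0) R he
    obtain ⟨D, hD⟩ := natDegree_bd ψ R
    obtain ⟨h, hh⟩ := hG k (ψ (b j0)) D hψe
    have hpow : ∀ (i : ℕ) (p : P), p ∈ N → (τ ^ i) p ∈ N ∧ ψ ((τ ^ i) p) = X ^ i * ψ p := by
      intro i
      induction i with
      | zero => intro p hp; simpa using hp
      | succ i ih =>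
        intro p hp
        obtain ⟨ha, hb⟩ := ih p hp
        have e : (τ ^ (i + 1)) p = τ ((τ ^ i) p) := by
          rw [pow_succ']
          rfl
        rw [e]
        refine ⟨hτN _ ha, ?_⟩
        rw [hψ _ ha, hb, pow_succ']
        ring
    have haev : ∀ g : k[X], aeval τ g (b j0) ∈ N ∧ ψ (aeval τ g (b j0)) = g * ψ (b j0) := by
      intro g
      induction g using Polynomial.induction_on' with
      | add g g' hg hg' =>
        rw [map_add, LinearMap.add_apply]
        refine ⟨N.add_mem hg.1 hg'.1, ?_⟩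
        rw [map_add, hg.2, hg'.2, add_mul]
      | monomial n c =>
        rw [aeval_monomial]
        have e : ((algebraMap k (Module.End k P)) c * τ ^ n) (b j0) = c • (τ ^ n) (b j0) := by
          rw [Module.End.mul_apply, Module.algebraMap_end_apply]
        rw [e]
        obtain ⟨ha, hb⟩ := hpow n _ heN
        refine ⟨N.smul_mem _ ha, ?_⟩
        rw [map_smul, hb, ← C_mul_X_pow_eq_monomial, smul_eq_C_mul, mul_assoc]
    set p : ℕ → P := fun q => aeval τ (h q) (b j0) with hp
    have key : ∀ (q q' : ℕ), q ≠ q' → ∀ (i : ℕ) (ρ ρ' : P), ρ ∈ R → ρ' ∈ R →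
        p q' - (τ ^ i) (p q) = ρ' - (τ ^ i) ρ → False := by
      intro q q' hne i ρ ρ' hρ hρ' heq
      have h1 := congrArg ψ heq
      rw [map_sub, map_sub, (haev (h q')).2, (hpow i _ (haev (h q)).1).2, (haev (h q)).2,
        (hpow i _ (hRN hρ)).2] at h1
      refine hh q q' hne i (ψ ρ') (-ψ ρ) (hD _ hρ') (by rw [natDegree_neg]; exact hD _ hρ) ?_
      rw [h1]
      ring
    have ht : ∀ q : ℕ, ∃ t : Fin r ⊕ Fin s, match t with
        | .inl j => ∃ n, p q - (τ ^ n) (b j) ∈ R
        | .inr i => p q - z i ∈ R := by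
      intro q
      rcases hall (p q) with ⟨j, hj, n, hn⟩ | ⟨i, hi, hn⟩
      · exact ⟨.inl ⟨j, hj⟩, n, hn⟩
      · exact ⟨.inr ⟨i, hi⟩, hn⟩
    choose t ht using ht
    obtain ⟨q, q', hne, hqq⟩ := Finite.exists_ne_map_eq_of_infinite t
    have hq := ht q
    have hq' := ht q'
    rw [← hqq] at hq'
    rcases htq : t q with j | i
    · rw [htq] at hq hq'
      obtain ⟨n, hn⟩ := hq
      obtain ⟨n', hn'⟩ := hq'
      have hmain : ∀ (q q' n n' : ℕ), q ≠ q' → n ≤ n' → p q - (τ ^ n) (b j) ∈ R →
          p q' - (τ ^ n') (b j) ∈ R → False := by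
        intro q q' n n' hne hle hn hn'
        refine key q q' hne (n' - n) _ _ hn hn' ?_
        have e : (τ ^ n') (b j) = (τ ^ (n' - n)) ((τ ^ n) (b j)) := by
          rw [← Module.End.mul_apply, ← pow_add, Nat.sub_add_cancel hle]
        rw [e, map_sub]
        abel
      rcases le_total n n' with hle | hle
      · exact hmain q q' n n' hne hle hn hn'
      · exact hmain q' q n' n hne.symm hle hn' hn
    · rw [htq] at hq hq'
      refine key q q' hne 0 _ _ hq hq' ?_
      simp only [pow_zero, Module.End.one_apply]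
      abel

end Pool.Agent.Helper61.LF
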