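import Pool.Agent.Helper61.LF.GoalsN

/-!
# PROJECT LF (MP_c65973_gt): the algebra, for commutative noetherian rings
-/

set_option autoImplicit false

namespace Pool.Agent.Helper61.LF

universe u

theorem Cov.mono {A : Type u} [Ring A] {P : Type u} [AddCommGroup P] [Module A P] {τ : P →ₗ[A] P}
    {b z : ℕ → P} {r s : ℕ} {R R' : Submodule A P} (h : Cov τ b z r s R) (hR : R ≤ R') :
    Cov τ b z r s R' := by
  intro p
  rcases h p with ⟨j, hj, n, hn⟩ | ⟨i, hi, hn⟩
  · exact Or.inl ⟨j, hj, n, hR hn⟩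
  · exact Or.inr ⟨i, hi, hR hn⟩

theorem mem_sup_of_mk {A : Type u} [CommRing A] {P : Type u} [AddCommGroup P] [Module A P]
    (R : Submodule A P) (I : Ideal A) :
    (R ⊔ I • ⊤ : Submodule A P) = (I • ⊤ : Submodule A (P ⧸ R)).comap R.mkQ := by
  have h1 : (I • ⊤ : Submodule A (P ⧸ R)) = (I • ⊤ : Submodule A P).map R.mkQ := by
    rw [Submodule.map_smul'', Submodule.map_top, Submodule.range_mkQ]
  rw [h1, Submodule.comap_map_mkQ]

theorem algn (hL : S_LEV.{u}) (hG : S_FGR.{u}) (h0 : S_CH0.{u}) (hP : S_PRM.{u}) (hM : S_MAX.{u})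
    (hF : S_FRO.{u}) (hC : S_CNT.{u}) : S_ALGN.{u} := by
  intro A _ _ hA P _ _ τ b z r s R hR hcov hinf
  have hfin : Module.Finite A P := hL A P τ b z r s R hR hcov
  have hft := hG A P τ b z r s R hcov
  have h1 : ∃ n : ℕ, 0 < n ∧ (n : A ⧸ Module.annihilator A (P ⧸ R)) = 0 := by
    by_contra hne
    push Not at hne
    refine h0 _ hft hne ?_
    intro φ t ht hall
    exact hA (φ.comp (Ideal.Quotient.mk _)) t ht fun a => hall _
  obtain ⟨N, hN, hN0⟩ := h1
  have hNR : ∀ x : P, N • x ∈ R := by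
    intro x
    have h2 : (N : A) ∈ Module.annihilator A (P ⧸ R) := by
      rw [← Ideal.Quotient.eq_zero_iff_mem]
      simpa using hN0
    rw [Module.mem_annihilator] at h2
    have h3 := h2 (R.mkQ x)
    rw [← map_smul] at h3
    have h4 : (N : A) • x ∈ R := (Submodule.Quotient.mk_eq_zero R).1 h3
    rwa [Nat.cast_smul_eq_nsmul] at h4
  obtain ⟨p, hp, R', hRR, hpR, hinf'⟩ := hP A P N R hN hNR hinf
  haveI : Fact p.Prime := ⟨hp⟩
  have hcov' := hcov.mono hRR
  have hft' := hG A P τ b z r s R' hcov'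
  obtain ⟨𝔪, h𝔪, hstr⟩ := hM A (P ⧸ R') p (fun x => by
    obtain ⟨y, rfl⟩ := R'.mkQ_surjective x
    rw [← map_nsmul]
    exact (Submodule.Quotient.mk_eq_zero R').2 (hpR y)) hft' hinf'
  obtain ⟨C, hC'⟩ := hF A P τ p 𝔪 h𝔪 R' hpR
  refine hC A P τ b z r s R' (fun m => R' ⊔ 𝔪 ^ m • ⊤) C hcov' (fun m => le_sup_left) ?_ hC'
  intro m
  refine lt_of_le_of_ne ?_ ?_
  · exact sup_le_sup_left (Submodule.smul_mono_left (Ideal.pow_le_pow_right (Nat.le_succ m))) _
  · intro he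
    apply hstr m
    rw [mem_sup_of_mk, mem_sup_of_mk] at he
    exact Submodule.comap_injective_of_surjective R'.mkQ_surjective he

end Pool.Agent.Helper61.LF
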