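import Pool.Agent.Helper61.LF.GoalsN

/-!
# PROJECT LF, CNT (MP_c65973_gt)
-/

set_option autoImplicit false

namespace Pool.Agent.Helper61.LF.CNT

open Pool.Agent.Helper61.LF

universe u

theorem big (K : ℕ) : ∃ m, K * (m + 1) < 2 ^ m := by
  refine ⟨2 * (K + 3), ?_⟩
  have h1 : K < 2 ^ K := Nat.lt_two_pow_self
  have h2 : 2 ^ (2 * (K + 3)) = (8 * 2 ^ K) * (8 * 2 ^ K) := by
    rw [show 2 * (K + 3) = (K + 3) + (K + 3) by ring, pow_add, pow_add 2 K 3]
    ring
  rw [h2]
  have h3 : K + 1 ≤ 2 ^ K := h1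
  calc K * (2 * (K + 3) + 1) < (8 * (K + 1)) * (8 * (K + 1)) := by nlinarith
    _ ≤ (8 * 2 ^ K) * (8 * 2 ^ K) := by gcongr

theorem t : S_CNT.{u} := by
  intro A _ P _ _ τ b z r s R I C hcov hR hI hper
  have hsurj : ∀ m, Function.Surjective
      (Sum.elim (fun x : Fin r × Fin (C * (m + 1)) => (I m).mkQ ((τ ^ (x.2 : ℕ)) (b x.1)))
        (fun i : Fin s => (I m).mkQ (z i))) := by
    intro m c
    obtain ⟨p, rfl⟩ := (I m).mkQ_surjective c
    rcases hcov p with ⟨j, hj, n, hn⟩ | ⟨i, hi, hn⟩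
    · obtain ⟨n', hn', h'⟩ := hper m n (b j)
      refine ⟨.inl (⟨j, hj⟩, ⟨n', hn'⟩), ?_⟩
      show (I m).mkQ ((τ ^ n') (b j)) = (I m).mkQ p
      refine ((Submodule.Quotient.eq _).2 ?_).symm
      have e : p - (τ ^ n') (b j) = (p - (τ ^ n) (b j)) + ((τ ^ n) (b j) - (τ ^ n') (b j)) := by
        abel
      rw [e]
      exact (I m).add_mem (hR m hn) h'
    · refine ⟨.inr ⟨i, hi⟩, ?_⟩
      show (I m).mkQ (z i) = (I m).mkQ p
      exact ((Submodule.Quotient.eq _).2 (hR m hn)).symm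
  have hfin : ∀ m, Finite (P ⧸ I m) := fun m => Finite.of_surjective _ (hsurj m)
  have hle : ∀ m, Nat.card (P ⧸ I m) ≤ r * (C * (m + 1)) + s := by
    intro m
    refine (Nat.card_le_card_of_surjective _ (hsurj m)).trans ?_
    simp [Nat.card_sum, Nat.card_prod]
  have hidx : ∀ m, (I m).toAddSubgroup.index = Nat.card (P ⧸ I m) := fun m => rfl
  have hge : ∀ m, 2 ^ m ≤ Nat.card (P ⧸ I m) := by
    intro m
    induction m with
    | zero =>
      have : Nonempty (P ⧸ I 0) := ⟨0⟩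
      have := hfin 0
      exact Nat.card_pos
    | succ m ih =>
      have h1 : (I (m + 1)).toAddSubgroup ≤ (I m).toAddSubgroup := (hI m).le
      have h2 := AddSubgroup.relIndex_mul_index h1
      rw [hidx, hidx] at h2
      have := hfin (m + 1)
      have h3 : 0 < Nat.card (P ⧸ I (m + 1)) := Nat.card_pos
      have h4 : (I (m + 1)).toAddSubgroup.relIndex (I m).toAddSubgroup ≠ 0 := by
        intro h
        rw [h, zero_mul] at h2
        omega
      have h5 : (I (m + 1)).toAddSubgroup.relIndex (I m).toAddSubgroup ≠ 1 := by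
        intro h
        exact (hI m).not_ge (AddSubgroup.relIndex_eq_one.1 h)
      have h6 : 2 ≤ (I (m + 1)).toAddSubgroup.relIndex (I m).toAddSubgroup := by omega
      rw [← h2, pow_succ']
      exact Nat.mul_le_mul h6 ih
  obtain ⟨m, hm⟩ := big (r * C + s)
  have h1 := (hge m).trans (hle m)
  have h2 : r * (C * (m + 1)) + s ≤ (r * C + s) * (m + 1) := by nlinarith
  omega

end Pool.Agent.Helper61.LF.CNT
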