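import Pool.Agent.Helper61.LF.GoalsN

/-!
# PROJECT LF, PRM (MP_c65973_gt)
-/

set_option autoImplicit false

namespace Pool.Agent.Helper61.LF.PRM

open Pool.Agent.Helper61.LF

universe u

theorem t : S_PRM.{u} := by
  intro A _ P _ _ N
  induction N using Nat.strong_induction_on with
  | _ N ih =>
    intro R hN hNR hinf
    by_cases h1 : N = 1
    · exfalso
      subst h1
      have : Subsingleton (P ⧸ R) := by
        refine ⟨fun a b => ?_⟩
        obtain ⟨x, rfl⟩ := R.mkQ_surjective a
        obtain ⟨y, rfl⟩ := R.mkQ_surjective b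
        refine (Submodule.Quotient.eq _).2 ?_
        simpa using hNR (x - y)
      exact not_finite (P ⧸ R)
    obtain ⟨p, hp, N', rfl⟩ := Nat.exists_prime_and_dvd h1
    set f : P →ₗ[A] P := p • LinearMap.id with hf
    have hfx : ∀ x, f x = p • x := fun x => rfl
    by_cases hR' : Infinite (P ⧸ (R ⊔ LinearMap.range f))
    · exact ⟨p, hp, R ⊔ LinearMap.range f, le_sup_left,
        fun x => Submodule.mem_sup_right (LinearMap.mem_range.2 ⟨x, rfl⟩), hR'⟩
    · have hR'' : Infinite (P ⧸ R.comap f) := by
        by_contra hfin
        rw [not_infinite_iff_finite] at hfin hR'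
        have hs1 := (R ⊔ LinearMap.range f).mkQ_surjective
        have hs2 := (R.comap f).mkQ_surjective
        have hs : Function.Surjective
            (fun c : (P ⧸ (R ⊔ LinearMap.range f)) × (P ⧸ R.comap f) =>
              R.mkQ (Function.surjInv hs1 c.1 + f (Function.surjInv hs2 c.2))) := by
          intro c
          obtain ⟨x, rfl⟩ := R.mkQ_surjective c
          have h2 : x - Function.surjInv hs1 ((R ⊔ LinearMap.range f).mkQ x) ∈
              R ⊔ LinearMap.range f :=
            (Submodule.Quotient.eq _).1 (Function.surjInv_eq hs1 _).symm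
          obtain ⟨ρ, hρ, w, ⟨y, rfl⟩, hw⟩ := Submodule.mem_sup.1 h2
          have h3 : y - Function.surjInv hs2 ((R.comap f).mkQ y) ∈ R.comap f :=
            (Submodule.Quotient.eq _).1 (Function.surjInv_eq hs2 _).symm
          rw [Submodule.mem_comap, map_sub] at h3
          refine ⟨((R ⊔ LinearMap.range f).mkQ x, (R.comap f).mkQ y), ?_⟩
          refine ((Submodule.Quotient.eq _).2 ?_).symm
          have e : x - (Function.surjInv hs1 ((R ⊔ LinearMap.range f).mkQ x) +
              f (Function.surjInv hs2 ((R.comap f).mkQ y))) =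
              ρ + (f y - f (Function.surjInv hs2 ((R.comap f).mkQ y))) := by
            rw [← sub_sub, ← hw]
            abel
          show x - (Function.surjInv hs1 ((R ⊔ LinearMap.range f).mkQ x) +
              f (Function.surjInv hs2 ((R.comap f).mkQ y))) ∈ R
          rw [e]
          exact R.add_mem hρ h3
        have := Finite.of_surjective _ hs
        exact hinf.not_finite this
      have hN' : 0 < N' := Nat.pos_of_mul_pos_left hN
      have hlt : N' < p * N' := by nlinarith [hp.two_le]
      obtain ⟨q, hq, R3, h3, h4, h5⟩ := ih N' hlt (R.comap f) hN' (fun x => by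
        rw [Submodule.mem_comap, hfx, ← mul_nsmul, mul_comm]
        exact hNR x) hR''
      refine ⟨q, hq, R3, le_trans ?_ h3, h4, h5⟩
      intro x hx
      rw [Submodule.mem_comap, hfx]
      exact R.nsmul_mem hx p

end Pool.Agent.Helper61.LF.PRM
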