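import Pool.Agent.Helper61.LF.FinN
import Pool.Agent.Helper61.LF.CNT
import Pool.Agent.Helper66.LF.FGF
import Pool.Agent.Helper83.LF.LEV
import Pool.Agent.Helper71.LF.FGR
import Pool.Agent.Helper71.LF.QUOTZ
import Pool.Agent.Helper69.LF.CH0
import Pool.Agent.Helper61.LF.PRM
import Pool.Agent.Helper80.LF.MAX
import Pool.Agent.Helper24.LF.FRO

/-!
# PROJECT LF (MP_c65973_gt): the theorem
-/

set_option autoImplicit false

namespace Pool.Agent.Helper61.LF

open Pool.Agent.Helper31.Sk Pool.Agent.Helper35.Skl Pool.Agent.Helper61.LN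

universe u

theorem quotz : S_QUOTZ.{u} := Pool.Agent.Helper71.LF.QUOTZ.t Pool.Agent.Helper79.LN.QUOT.t

theorem fgf : S_FGF.{u} := Pool.Agent.Helper66.LF.FGF.t

theorem algn_all : S_ALGN.{u} := algn Pool.Agent.Helper83.LF.LEV.t Pool.Agent.Helper71.LF.FGR.t
  Pool.Agent.Helper69.LF.CH0.t Pool.Agent.Helper61.LF.PRM.t (Pool.Agent.Helper80.LF.MAX.t fgf)
  Pool.Agent.Helper24.LF.FRO.t Pool.Agent.Helper61.LF.CNT.t

section
variable (A : Type u) [CommRing A] [IsNoetherianRing A] (hk : NoAlg A) (M : MovesU A)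
  (N : MovesD A) (Z : Set (KLin A × KLin A)) (hM : TanglesU M) (hN : TanglesD N) (hZ : Z.Finite)
include hk hM hN hZ

theorem final_un : ¬ SkeinInvZ M N Z un :=
  no_un quotz tau algn_all good
    Pool.Agent.Helper22.LN.TT3.t2
    (Pool.Agent.Helper71.LN.CHG.t2 (Pool.Agent.Helper71.LN.CHG.t1 Pool.Agent.Helper22.LN.SUB.t)
      Pool.Agent.Helper10.LN.INV.t) Pool.Agent.Helper22.LN.TT3.t1 A hk M N Z hM hN hZ

theorem final_ge : ¬ SkeinInvZ M N Z ge :=
  no_ge quotz tau algn_all good ges gel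
    Pool.Agent.Helper22.LN.TT3.t1 A hk M N Z hM hN hZ

theorem final_cr : ¬ SkeinInvZ M N Z cr :=
  no_cr quotz tau algn_all good Pool.Agent.Helper70.LN.SC.t A hk M N Z hM hN hZ

end

end Pool.Agent.Helper61.LF
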