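import Pool.Agent.Helper61.LN.Defs

/-!
# Skein invariants with coefficients in a ring (MP_c65973_gt): moves without strands

Moves of 0-tangles are relations between `A`-linear combinations of whole knots.
-/

set_option autoImplicit false

namespace Pool.Agent.Helper61.LF

open Pool.Agent.Helper31.Sk Pool.Agent.Helper35.Skl Pool.Agent.Helper61.LN

universe u

section
variable {A : Type u} [Ring A]

/-- Two linear combinations of knots differ by one isotopy, by one application of a move of `M` or of
`N` (`OneMove`), or by one application of a move of `Z`: `c` times the linear combination `x` of knots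
is replaced by `c` times the linear combination `y`, `(x, y) ∈ Z` (a move of 0-tangles). -/
inductive OneMoveZ (M : MovesU A) (N : MovesD A) (Z : Set (KLin A × KLin A)) :
    KLin A → KLin A → Prop
  | move (x y : KLin A) : OneMove M N x y → OneMoveZ M N Z x y
  | rel (x y z : KLin A) (c : A) : (x, y) ∈ Z → OneMoveZ M N Z (z + c • x) (z + c • y)

/-- The set `A[𝒦] / (M, N, Z)` of the classes of `A`-linear combinations of knots. -/
def ClassesZ (M : MovesU A) (N : MovesD A) (Z : Set (KLin A × KLin A)) : Type u :=
  Quot (OneMoveZ M N Z)

/-- The natural map from the knot diagrams to the classes. -/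
noncomputable def clsZ (M : MovesU A) (N : MovesD A) (Z : Set (KLin A × KLin A)) (w : Kn) :
    ClassesZ M N Z :=
  Quot.mk _ (Finsupp.single w 1)

/-- The knot invariant `I` is the skein invariant which is defined by the moves `M`, `N`, `Z`: there
is an injective map `f` from the set of all the classes with `I = f ∘ p`, where `p` is the natural
map. -/
def SkeinInvZ (M : MovesU A) (N : MovesD A) (Z : Set (KLin A × KLin A)) {X : Type}
    (I : Word → X) : Prop :=
  ∃ f : ClassesZ M N Z → X, Function.Injective f ∧ ∀ w : Kn, I w.1 = f (clsZ M N Z w)

/-- The relations of `Z`. -/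
noncomputable def RelZ (Z : Set (KLin A × KLin A)) : Submodule A (KLin A) :=
  Submodule.span A {d | ∃ x y, (x, y) ∈ Z ∧ d = x - y}

end

end Pool.Agent.Helper61.LF
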