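import Pool.Agent.Helper61.LF.GoalsN
import Pool.Agent.Helper48.LF.EX
import Pool.Agent.Helper66.LF.FGF

/-!
# PROJECT LF (MP_c65973_gt): examples of rings with `NoAlg`
-/

set_option autoImplicit false

namespace Pool.Agent.Helper61.LF

universe u

theorem inf_res {A : Type u} [CommRing A] (h : ∀ n : ℕ, 0 < n → IsUnit (n : A)) (m : Ideal A)
    (hm : m.IsMaximal) : Infinite (A ⧸ m) := by
  letI := Ideal.Quotient.field m
  have hc : CharZero (A ⧸ m) := by
    refine charZero_of_inj_zero fun n hn => ?_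
    by_contra h0
    have h1 := (h n (Nat.pos_of_ne_zero h0)).map (Ideal.Quotient.mk m)
    rw [map_natCast] at h1
    exact h1.ne_zero hn
  exact Infinite.of_injective (Nat.cast : ℕ → A ⧸ m) Nat.cast_injective

/-- A field, a ring of positive characteristic and a ring which contains the rational numbers have no
ring homomorphism to a finitely generated ring of algebraic numbers. -/
theorem noAlg_of {A : Type u} [CommRing A]
    (h : IsField A ∨ (∃ n : ℕ, 0 < n ∧ (n : A) = 0) ∨ (∀ n : ℕ, 0 < n → IsUnit (n : A)) ∨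
      NoAlg A) : NoAlg A := by
  have hex : S_EX.{u} := Pool.Agent.Helper48.LF.EX.t (fun K _ => Pool.Agent.Helper66.LF.FGF.t K)
  have h2 : (∀ n : ℕ, 0 < n → IsUnit (n : A)) → NoAlg A := fun h =>
    (hex A).2 (fun m hm => inf_res h m hm)
  rcases h with h | h | h | h
  · by_cases hn : ∃ n : ℕ, 0 < n ∧ (n : A) = 0
    · exact (hex A).1 hn
    · refine h2 fun n hp => ?_
      have h0 : (n : A) ≠ 0 := fun h0 => hn ⟨n, hp, h0⟩
      obtain ⟨b, hb⟩ := h.mul_inv_cancel h0
      exact IsUnit.of_mul_eq_one b hb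
  · exact (hex A).1 h
  · exact h2 h
  · exact h

end Pool.Agent.Helper61.LF
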