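import Pool.Agent.Helper61.LF.ALGN
import Pool.Agent.Helper61.LN.All

/-!
# PROJECT LF (MP_c65973_gt): the theorem from the goals
-/

set_option autoImplicit false

namespace Pool.Agent.Helper61.LF

open Pool.Agent.Helper31.Sk Pool.Agent.Helper35.Skl Pool.Agent.Helper61.LN

universe u

section
variable {A : Type u} [Ring A]

/-- the relations without strands, in the module of the classes -/
noncomputable def RZ (M : MovesU A) (N : MovesD A) (Z : Set (KLin A × KLin A)) :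
    Submodule A (KLin A ⧸ RelK M N) := (RelZ Z).map (RelK M N).mkQ

theorem mem_RZ {M : MovesU A} {N : MovesD A} {Z : Set (KLin A × KLin A)} (x y : KLin A) :
    (RelK M N).mkQ x - (RelK M N).mkQ y ∈ RZ M N Z ↔ x - y ∈ RelK M N ⊔ RelZ Z := by
  rw [← map_sub]
  constructor
  · rintro ⟨d, hd, hd'⟩
    have h1 : d - (x - y) ∈ RelK M N := (Submodule.Quotient.eq _).1 hd'
    have e : x - y = -(d - (x - y)) + d := by abel
    rw [e]
    exact Submodule.add_mem_sup ((RelK M N).neg_mem h1) hd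
  · intro h
    obtain ⟨a, ha, d, hd, hs⟩ := Submodule.mem_sup.1 h
    refine ⟨d, hd, ?_⟩
    refine (Submodule.Quotient.eq _).2 ?_
    rw [← hs]
    have e : d - (a + d) = -a := by abel
    rw [e]
    exact (RelK M N).neg_mem ha

theorem skein_modZ (hQ : S_QUOTZ.{u}) {M : MovesU A} {N : MovesD A} {Z : Set (KLin A × KLin A)}
    {X : Type} {I : Word → X} (h : SkeinInvZ M N Z I) :
    ∃ F : (KLin A ⧸ RelK M N) → X, (∀ p q, F p = F q ↔ p - q ∈ RZ M N Z) ∧
      ∀ w : Kn, I w.1 = F (skn M N w) := by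
  obtain ⟨f, hf, hI⟩ := h
  have hs := (RelK M N).mkQ_surjective
  set g : (KLin A ⧸ RelK M N) → KLin A := Function.surjInv hs with hg
  have hgs : ∀ p, (RelK M N).mkQ (g p) = p := Function.surjInv_eq hs
  have hfxy : ∀ x y : KLin A, f (Quot.mk _ x) = f (Quot.mk _ y) ↔
      (RelK M N).mkQ x - (RelK M N).mkQ y ∈ RZ M N Z := by
    intro x y
    rw [mem_RZ, ← hQ A M N Z x y]
    constructor
    · intro h1
      exact Quot.eqvGen_exact (hf h1)
    · intro h1
      rw [Quot.eqvGen_sound h1]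
  refine ⟨fun p => f (Quot.mk _ (g p)), fun p q => ?_, fun w => ?_⟩
  · show f (Quot.mk _ (g p)) = f (Quot.mk _ (g q)) ↔ _
    rw [hfxy, hgs, hgs]
  · show I w.1 = f (Quot.mk _ (g (skn M N w)))
    rw [hI w]
    show f (Quot.mk _ (Finsupp.single w 1)) = _
    rw [hfxy, hgs]
    have e : (RelK M N).mkQ (Finsupp.single w 1) - skn M N w = 0 := sub_self _
    rw [e]
    exact (RZ M N Z).zero_mem

theorem fg_RZ {M : MovesU A} {N : MovesD A} {Z : Set (KLin A × KLin A)} (hZ : Z.Finite) :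
    (RZ M N Z).FG := by
  have h1 : {d : KLin A | ∃ x y, (x, y) ∈ Z ∧ d = x - y}.Finite := by
    refine (hZ.image fun p => p.1 - p.2).subset ?_
    rintro d ⟨x, y, h, rfl⟩
    exact ⟨(x, y), h, rfl⟩
  exact Submodule.FG.map _ (Submodule.fg_def.2 ⟨_, h1, rfl⟩)

/-- sums with trefoil knots -/
def Wt (hG : S_GOOD) (w : Kn) (n : ℕ) : Kn :=
  ⟨(con (TT 3))^[n] w.1, by
    induction n with
    | zero => exact w.2
    | succ n ih =>
      rw [Function.iterate_succ_apply']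
      exact hG.1.knot _ ih⟩

theorem tau_pow (hG : S_GOOD) {M : MovesU A} {N : MovesD A}
    (τ : (KLin A ⧸ RelK M N) →ₗ[A] (KLin A ⧸ RelK M N))
    (hτ : ∀ w : Kn, τ (skn M N w) = skn M N ⟨con (TT 3) w.1, hG.1.knot w.1 w.2⟩) (w : Kn) (n : ℕ) :
    (τ ^ n) (skn M N w) = skn M N (Wt hG w n) := by
  induction n with
  | zero => rfl
  | succ n ih =>
    have e : (τ ^ (n + 1)) (skn M N w) = τ ((τ ^ n) (skn M N w)) := by
      rw [pow_succ']
      rfl
    rw [e, ih, hτ]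
    congr 1
    apply Subtype.ext
    show con (TT 3) ((con (TT 3))^[n] w.1) = (con (TT 3))^[n + 1] w.1
    rw [Function.iterate_succ_apply']

end

/-- the algebra, for functions -/
theorem no_F (hA : S_ALGN.{u}) (k : Type u) [CommRing k] [IsNoetherianRing k] (hk : NoAlg k)
    (P : Type u) [AddCommGroup P] [Module k P]
    (τ : P →ₗ[k] P) (b : ℕ → P) (r : ℕ) (R : Submodule k P) (hR : R.FG) {X : Type}
    (F : P → X) (hF : ∀ p q, F p = F q ↔ p - q ∈ R) (bad : ℕ → X) (s : ℕ)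
    (hcov : ∀ x : X, (∃ j < r, ∃ n, F ((τ ^ n) (b j)) = x) ∨ ∃ i < s, bad i = x)
    (hinf : (Set.range F).Infinite) : False := by
  classical
  set z : ℕ → P := fun i => if h : ∃ p, F p = bad i then h.choose else 0 with hz
  have hzi : ∀ i p, F p = bad i → F p = F (z i) := by
    intro i p hp
    have h : ∃ p, F p = bad i := ⟨p, hp⟩
    have e : F (z i) = bad i := by
      simp only [hz, dif_pos h]
      exact h.choose_spec
    rw [hp, e]
  refine hA k hk P τ b z r s R hR (fun p => ?_) ?_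
  · rcases hcov (F p) with ⟨j, hj, n, hn⟩ | ⟨i, hi, hn⟩
    · exact Or.inl ⟨j, hj, n, (hF _ _).1 hn.symm⟩
    · exact Or.inr ⟨i, hi, (hF _ _).1 (hzi i p hn.symm)⟩
  · by_contra hfin
    rw [not_infinite_iff_finite] at hfin
    apply hinf
    have hs := R.mkQ_surjective
    refine (Set.finite_range fun c : P ⧸ R => F (Function.surjInv hs c)).subset ?_
    rintro _ ⟨p, rfl⟩
    refine ⟨R.mkQ p, ?_⟩
    refine (hF _ _).2 ?_
    refine (Submodule.Quotient.eq _).1 ?_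
    exact Function.surjInv_eq hs (R.mkQ p)

theorem un_iter (hU : S_UNU) (hL : S_UNL) (h3 : S_TT3) (n : ℕ) :
    un ((con (TT 3))^[n] unknot) = n := by
  have h1 := hU n
  obtain ⟨j, hj⟩ : ∃ j : ℕ, un ((con (TT 3))^[n] unknot) = j :=
    ⟨_, (ENat.natCast_toNat (ne_top_of_le_ne_top (ENat.natCast_ne_top n) h1)).symm⟩
  have h2 := hL _ j hj
  rw [e3_iter h3] at h2
  have h4 : n + 1 ≤ j + 1 := (Nat.pow_le_pow_iff_right (by norm_num)).1 h2
  rw [hj] at h1 ⊢
  have h5 : j ≤ n := by exact_mod_cast h1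
  have h6 : j = n := by omega
  rw [h6]

theorem ge_iter (hG : S_GOOD) (hS : S_GES) (hL : S_GEL) (h3 : S_TT3) (m : ℕ) :
    ∃ n, ge ((con (TT 3))^[n] unknot) = m := by
  set v : ℕ → ℕ∞ := fun n => ge ((con (TT 3))^[n] unknot) with hv
  have v0 : v 0 = 0 := by
    refine le_antisymm (sInf_le ?_) zero_le
    exact ⟨0, [], rfl, rfl, iso_refl _ _ _⟩
  have vs : ∀ n, v (n + 1) ≤ v n + 1 := by
    intro n
    simp only [hv]
    rw [Function.iterate_succ_apply']
    exact hS _ (Wn hG n).2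
  have vl : ∀ n : ℕ, (n : ℕ∞) ≤ 4 * v n := by
    intro n
    by_cases ht : v n = ⊤
    · rw [ht]
      simp
    · obtain ⟨h, hh⟩ : ∃ h : ℕ, v n = h := ⟨_, (ENat.natCast_toNat ht).symm⟩
      have h2 := hL _ h (Wn hG n).2 hh
      have e : e3 (Wn hG n).1 0 = 3 ^ (n + 1) := e3_iter h3 n
      rw [e] at h2
      have h4 : n + 1 ≤ 4 * h + 1 := (Nat.pow_le_pow_iff_right (by norm_num)).1 h2
      rw [hh]
      exact_mod_cast (by omega : n ≤ 4 * h)
  classical
  have hex : ∃ n, (m : ℕ∞) ≤ v n := by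
    refine ⟨4 * m, ?_⟩
    have h1 := vl (4 * m)
    by_cases ht : v (4 * m) = ⊤
    · rw [ht]; exact le_top
    · obtain ⟨h, hh⟩ : ∃ h : ℕ, v (4 * m) = h := ⟨_, (ENat.natCast_toNat ht).symm⟩
      rw [hh] at h1 ⊢
      have h2 : 4 * m ≤ 4 * h := by exact_mod_cast h1
      exact_mod_cast (by omega : m ≤ h)
  have hsp := Nat.find_spec hex
  have hmin := fun k => Nat.find_min hex (m := k)
  rcases hn : Nat.find hex with _ | n
  · rw [hn, v0] at hsp
    refine ⟨0, ?_⟩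
    show v 0 = m
    rw [v0]
    exact (le_antisymm hsp zero_le).symm
  · rw [hn] at hsp
    refine ⟨n + 1, le_antisymm ?_ hsp⟩
    have h1 := hmin n (by omega)
    rw [not_le] at h1
    exact (vs n).trans (Order.add_one_le_of_lt h1)

/-- the unknotting number -/
theorem no_un (hQ : S_QUOTZ.{u}) (hT : S_TAU.{u}) (hA : S_ALGN.{u}) (hG : S_GOOD) (hU : S_UNU)
    (hL : S_UNL) (h3 : S_TT3) (A : Type u) [CommRing A] [IsNoetherianRing A] (hk : NoAlg A) (M : MovesU A) (N : MovesD A)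
    (Z : Set (KLin A × KLin A)) (hM : TanglesU M) (hN : TanglesD N) (hZ : Z.Finite) :
    ¬ SkeinInvZ M N Z un := by
  intro h
  obtain ⟨F, hF, hI⟩ := skein_modZ hQ h
  obtain ⟨τ, hτ⟩ := hT A M N hM hN (TT 3) hG.1
  have hFn : ∀ n : ℕ, F ((τ ^ n) (skn M N ⟨unknot, isKnot_unknot⟩)) = n := by
    intro n
    rw [tau_pow hG τ hτ, ← hI]
    exact un_iter hU hL h3 n
  refine no_F hA A hk _ τ (fun _ => skn M N ⟨unknot, isKnot_unknot⟩) 1 (RZ M N Z)
    (fg_RZ hZ) F hF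
    (fun _ => ⊤) 1 (fun x => ?_) ?_
  · by_cases hx : x = ⊤
    · exact Or.inr ⟨0, one_pos, hx.symm⟩
    · refine Or.inl ⟨0, one_pos, x.toNat, ?_⟩
      rw [hFn, ENat.natCast_toNat hx]
  · refine (Set.infinite_range_of_injective (f := fun m : ℕ => (m : ℕ∞))
      (fun a b hab => by
        have hab' : (a : ℕ∞) = b := hab
        exact_mod_cast hab')).mono ?_
    rintro _ ⟨m, rfl⟩
    exact ⟨_, hFn m⟩

/-- the genus -/
theorem no_ge (hQ : S_QUOTZ.{u}) (hT : S_TAU.{u}) (hA : S_ALGN.{u}) (hG : S_GOOD) (hS : S_GES)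
    (hL : S_GEL) (h3 : S_TT3) (A : Type u) [CommRing A] [IsNoetherianRing A] (hk : NoAlg A) (M : MovesU A) (N : MovesD A)
    (Z : Set (KLin A × KLin A)) (hM : TanglesU M) (hN : TanglesD N) (hZ : Z.Finite) :
    ¬ SkeinInvZ M N Z ge := by
  intro h
  obtain ⟨F, hF, hI⟩ := skein_modZ hQ h
  obtain ⟨τ, hτ⟩ := hT A M N hM hN (TT 3) hG.1
  have hFn : ∀ n : ℕ, F ((τ ^ n) (skn M N ⟨unknot, isKnot_unknot⟩)) =
      ge ((con (TT 3))^[n] unknot) := by
    intro n
    rw [tau_pow hG τ hτ, ← hI]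
    rfl
  refine no_F hA A hk _ τ (fun _ => skn M N ⟨unknot, isKnot_unknot⟩) 1 (RZ M N Z)
    (fg_RZ hZ) F hF
    (fun _ => ⊤) 1 (fun x => ?_) ?_
  · by_cases hx : x = ⊤
    · exact Or.inr ⟨0, one_pos, hx.symm⟩
    · obtain ⟨n, hn⟩ := ge_iter hG hS hL h3 x.toNat
      refine Or.inl ⟨0, one_pos, n, ?_⟩
      rw [hFn, hn, ENat.natCast_toNat hx]
  · refine (Set.infinite_range_of_injective (f := fun m : ℕ => (m : ℕ∞))
      (fun a b hab => by
        have hab' : (a : ℕ∞) = b := hab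
        exact_mod_cast hab')).mono ?_
    rintro _ ⟨m, rfl⟩
    obtain ⟨n, hn⟩ := ge_iter hG hS hL h3 m
    exact ⟨_, (hFn n).trans hn⟩

open Pool.Agent.Helper90.LN.CR in
/-- the crossing number -/
theorem no_cr (hQ : S_QUOTZ.{u}) (hT : S_TAU.{u}) (hA : S_ALGN.{u}) (hG : S_GOOD) (hC : S_SC)
    (A : Type u) [CommRing A] [IsNoetherianRing A] (hk : NoAlg A) (M : MovesU A) (N : MovesD A)
    (Z : Set (KLin A × KLin A)) (hM : TanglesU M) (hN : TanglesD N) (hZ : Z.Finite) :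
    ¬ SkeinInvZ M N Z cr := by
  intro h
  obtain ⟨F, hF, hI⟩ := skein_modZ hQ h
  obtain ⟨τ, hτ⟩ := hT A M N hM hN (TT 3) hG.1
  have hV : ∀ (w : Word) (m : ℕ), V w m → ∀ n, V ((con (TT 3))^[n] w) (m + 3 * n) := by
    intro w m hw n
    induction n with
    | zero => exact hw
    | succ n ih =>
      rw [Function.iterate_succ_apply']
      exact con_V hC hG (Or.inl rfl) ih
  have hFn : ∀ (w : Word) (m : ℕ) (hw : V w m) (n : ℕ),
      F ((τ ^ n) (skn M N ⟨w, hw.1⟩)) = m + 3 * n := by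
    intro w m hw n
    rw [tau_pow hG τ hτ, ← hI]
    exact cr_of (hV w m hw n)
  have hV5 : V (con (TT 5) unknot) (0 + 5) := con_V hC hG (Or.inr rfl) V_unknot
  set b : ℕ → KLin A ⧸ RelK M N := fun j =>
    if j = 0 then skn M N ⟨unknot, V_unknot.1⟩
    else if j = 1 then skn M N ⟨_, V_f8.1⟩ else skn M N ⟨_, hV5.1⟩ with hb
  have hcov : ∀ x : ℕ, (∃ j < 3, ∃ n, F ((τ ^ n) (b j)) = x) ∨ ∃ i < 2, i + 1 = x := by
    intro x
    by_cases h1 : x = 1
    · exact Or.inr ⟨0, by omega, by omega⟩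
    by_cases h2 : x = 2
    · exact Or.inr ⟨1, by omega, by omega⟩
    left
    rcases (by omega : x % 3 = 0 ∨ x % 3 = 1 ∨ x % 3 = 2) with h3 | h3 | h3
    · refine ⟨0, by omega, x / 3, ?_⟩
      have e : b 0 = skn M N ⟨unknot, V_unknot.1⟩ := by simp [hb]
      rw [e, hFn _ _ V_unknot]
      omega
    · refine ⟨1, by omega, x / 3 - 1, ?_⟩
      have e : b 1 = skn M N ⟨_, V_f8.1⟩ := by simp [hb]
      rw [e, hFn _ _ V_f8]
      omega
    · refine ⟨2, by omega, x / 3 - 1, ?_⟩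
      have e : b 2 = skn M N ⟨_, hV5.1⟩ := by simp [hb]
      rw [e, hFn _ _ hV5]
      omega
  refine no_F hA A hk _ τ b 3 (RZ M N Z) (fg_RZ hZ) F hF (fun i => i + 1) 2 hcov ?_
  refine (Set.infinite_range_of_injective (f := fun m : ℕ => m + 3)
    (fun a b hab => by simpa using hab)).mono ?_
  rintro _ ⟨m, rfl⟩
  rcases hcov (m + 3) with ⟨j, _, n, hn⟩ | ⟨i, hi, hn⟩
  · exact ⟨_, hn⟩
  · omega

end Pool.Agent.Helper61.LF
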