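import Pool.Agent.Helper61.LF.Defs

/-!
# PROJECT LF (MP_c65973_gt): goals

The extension of `LinearMoves`: the coefficients are a field, and finitely many moves of 0-tangles
(relations between linear combinations of whole knots) are allowed.
-/

set_option autoImplicit false

namespace Pool.Agent.Helper61.LF

open Pool.Agent.Helper31.Sk Pool.Agent.Helper35.Skl Pool.Agent.Helper61.LN Polynomial

universe u

/-- **FGF**. A field which is finitely generated as a ring is finite.

Proof. `ℤ` is a Jacobson ring (`isJacobsonRing_iff_prime_eq`: a prime ideal of `ℤ` is maximal, or `⊥`,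
and an integer in all the ideals `(p)` is `0`). `Algebra.FiniteType ℤ k`, so
`finite_of_finite_type_of_isJacobsonRing ℤ k : Module.Finite ℤ k`. If `k` has characteristic `0`, then
`k` is integral over `ℤ` and `ℤ → k` is injective, so `ℤ` is a field (`isField_of_isIntegral_of_isField`),
contradiction (or: `1/2` is integral, so it is an integer). If `k` has characteristic `p`, then `k` is
a finitely generated module over `ZMod p`, so finite. -/
def S_FGF : Prop := ∀ (k : Type u) [Field k] (s : Set k), s.Finite → Algebra.adjoin ℤ s = ⊤ →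
  Finite k

/-- **FIN** takes `S_FGF` as a hypothesis. The finite-dimensional case.

Proof. `P ⧸ R` is infinite. If `k` is finite then `P` is finite, contradiction. So `k` is infinite.
`R ≠ ⊤`, so there is a linear map `φ : P → k`, `φ ≠ 0`, with `R ≤ ker φ`
(`Submodule.exists_le_ker_of_lt_top`), it is surjective. Let `e_1, .., e_d` be a basis of `P`
(`Module.finBasis k P`) and `B` the `ℤ`-subalgebra of `k` generated by the finitely many entries of the
matrix of `τ`, the coordinates of the `b j`, `j < r`, and the `φ (e_l)`. All coordinates of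
`τ^n (b j)` are in `B` (induction on `n`), so `φ (τ^n (b j)) ∈ B`. For `c : k` choose `p` with `φ p = c`:
the hypothesis gives `c ∈ B` or `c = φ (z i)`, `i < s`. So the complement of `B` is finite; then
`B = ⊤` (`B` is infinite because `k` is; if `c ∉ B` then `c + b ∉ B` for all `b ∈ B`). By `S_FGF`, `k` is
finite, contradiction. -/
def S_FIN : Prop := ∀ (k : Type u) [Field k] (P : Type u) [AddCommGroup P] [Module k P]
  [Module.Finite k P] (τ : P →ₗ[k] P) (b z : ℕ → P) (r s : ℕ) (R : Submodule k P),
  (∀ p : P, (∃ j < r, ∃ n, p - (τ ^ n) (b j) ∈ R) ∨ ∃ i < s, p - z i ∈ R) →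
  Infinite (P ⧸ R) → False

/-- **PSI**. If the vectors `τ^n e` span a space of infinite dimension and `R` has finite dimension,
then there are a `τ`-stable subspace `N` which contains `e` and `R` and a linear map `ψ : P → k[X]` with
`ψ (τ p) = X * ψ p` for `p ∈ N` and `ψ e ≠ 0`.

Proof. `P` is a `k[X]`-module via `τ` (`Module.AEval' τ`); `N` = the submodule generated by `e` and a
finite set of generators of `R`. `N` is a finitely generated `k[X]`-module, `e` is not a torsion
element: `g(τ) e = 0` with `g ≠ 0` (monic, degree `d`) would give that all `τ^n e` are in the span of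
`τ^i e`, `i < d`. The quotient of `N` by its torsion submodule is torsion free and finitely generated
over the principal ideal domain `k[X]`, hence free (`Module.free_of_finite_type_torsion_free'`), the
class of `e` is not `0`, so a coordinate function of a basis is not `0` on it. This gives
`ψ₀ : N → k[X]`; extend it to a `k`-linear map `P → k[X]` (`LinearMap.exists_extend`). -/
def S_PSI : Prop := ∀ (k : Type u) [Field k] (P : Type u) [AddCommGroup P] [Module k P]
  (τ : P →ₗ[k] P) (e : P) (R : Submodule k P) [Module.Finite k R],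
  ¬ Module.Finite k (Submodule.span k (Set.range fun n : ℕ => (τ ^ n) e)) →
  ∃ (N : Submodule k P) (ψ : P →ₗ[k] k[X]), e ∈ N ∧ R ≤ N ∧ (∀ p ∈ N, τ p ∈ N) ∧
    (∀ p ∈ N, ψ (τ p) = X * ψ p) ∧ ψ e ≠ 0

/-- **GAP**. Proof. `d = ε.natDegree`, `L = D + d + 1`, `h q = X^L + X^(L (q+2))`. Suppose
`(X^L + X^(L(q'+2))) ε - A = X^i ((X^L + X^(L(q+2))) ε + B)`. Degrees: `L(q'+2) + d = i + L(q+2) + d`
(`L + d`, `D` are smaller), so `q' > q` and `i = L(q'-q)`. The coefficient at `m = i + L + d`
(`= L(q'-q+1) + d`) on the right is the leading coefficient of `ε` (the other terms have degrees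
`≥ L(q'+2) > m` and `≤ i + D < m`), on the left it is `0` (`X^L ε` and `A` have degrees
`≤ L + d < m`, the other term has only degrees `≥ L(q'+2) > m`). Contradiction. -/
def S_GAP : Prop := ∀ (k : Type u) [Field k] (ε : k[X]) (D : ℕ), ε ≠ 0 → ∃ h : ℕ → k[X],
  ∀ q q' : ℕ, q ≠ q' → ∀ (i : ℕ) (A B : k[X]), A.natDegree ≤ D → B.natDegree ≤ D →
    h q' * ε - X ^ i * (h q * ε) ≠ A + X ^ i * B

/-- **ALGF** takes `S_FIN`, `S_PSI`, `S_GAP` as hypotheses (done by helper61). -/
def S_ALGF : Prop := ∀ (k : Type u) [Field k] (P : Type u) [AddCommGroup P] [Module k P]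
  (τ : P →ₗ[k] P) (b z : ℕ → P) (r s : ℕ) (R : Submodule k P) [Module.Finite k R],
  (∀ p : P, (∃ j < r, ∃ n, p - (τ ^ n) (b j) ∈ R) ∨ ∃ i < s, p - z i ∈ R) →
  Infinite (P ⧸ R) → False

/-- **QUOTZ** takes `S_QUOT` (proved: `Pool.Agent.Helper79.LN.QUOT.t`) as a hypothesis. The classes are
the cosets of the relations.

Proof. One step changes the linear combination by an element of `RelK M N ⊔ RelZ Z` (for a step of
`OneMove` use `S_QUOT` for one step; for `rel`: `(z + c x) - (z + c y) = c (x - y)`). Conversely: for
`d ∈ RelZ Z` and all `c`, `w`: `w + c • d ~ w` (induction on the span, as `rel_eqv` in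
`Helper79/LN/QUOT.lean`). If `x - y = a + d`, `a ∈ RelK`, `d ∈ RelZ`, then `x ~ y + d` by `S_QUOT`
(`EqvGen` of `OneMove` is contained in `EqvGen` of `OneMoveZ`: `Relation.EqvGen.mono`), and
`y + d ~ y`. -/
def S_QUOTZ : Prop := ∀ (A : Type u) [Ring A] (M : MovesU A) (N : MovesD A)
  (Z : Set (KLin A × KLin A)) (x y : KLin A),
  Relation.EqvGen (OneMoveZ M N Z) x y ↔ x - y ∈ RelK M N ⊔ RelZ Z

end Pool.Agent.Helper61.LF
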