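import Pool.Agent.Helper61.LF.Goals

/-!
# PROJECT LF, part 2 (MP_c65973_gt): goals for commutative noetherian rings of coefficients

The extension of the field case (`S_ALGF`) to all commutative noetherian rings `A` which have no ring
homomorphism to a finitely generated ring of algebraic numbers (fields, noetherian rings of positive
characteristic, noetherian algebras over the rational numbers, noetherian local rings, ...).
-/

set_option autoImplicit false

namespace Pool.Agent.Helper61.LF

open Polynomial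

universe u

/-- There is no ring homomorphism from `A` to a finitely generated ring of algebraic numbers. -/
def NoAlg (A : Type u) [CommRing A] : Prop :=
  ∀ (φ : A →+* AlgebraicClosure ℚ) (s : Set (AlgebraicClosure ℚ)), s.Finite →
    ¬ ∀ a : A, φ a ∈ Subring.closure s

/-- Modulo `R` every element of `P` is some `τ^n (b j)`, `j < r`, or some `z i`, `i < s`. -/
def Cov {A : Type u} [Ring A] {P : Type u} [AddCommGroup P] [Module A P] (τ : P →ₗ[A] P)
    (b z : ℕ → P) (r s : ℕ) (R : Submodule A P) : Prop :=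
  ∀ p : P, (∃ j < r, ∃ n, p - (τ ^ n) (b j) ∈ R) ∨ ∃ i < s, p - z i ∈ R

/-- **LEV**. Let `A` be noetherian, `R` finitely generated, `Cov`. Then `P` is finitely generated.

Proof. Let `E 0 = R + span (b j, j < r) + span (z i, i < s)` and `E (m+1) = E m ⊔ (E m).map τ`: an
increasing sequence of finitely generated submodules, with union `P` (`τ^n (b j) ∈ E n`). Suppose that
`P` is not finitely generated. Then `E m ≠ E (m+1)` for all `m` (otherwise `E m` is stable under `τ`, so
it contains all `τ^n (b j)`, so it is `P`). Note `E (m+1) = E m ⊔ (E 0).map (τ^(m+1))` (induction).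
The submodules `S m = {x ∈ E 0 | τ^(m+1) x ∈ E m}` form an increasing sequence of submodules of the
noetherian module `E 0`, so `S m = S (m+1)` for `m ≥ m0`. Hence for `m ≥ m0 + 1`: if `x ∈ E m` and
`τ x ∈ E m` then `x ∈ E (m-1)` (write `x = y + τ^m w`, `y ∈ E (m-1)`, `w ∈ E 0`; then
`τ^(m+1) w = τ x - τ y ∈ E m`, so `w ∈ S m = S (m-1)`, `τ^m w ∈ E (m-1)`). Say that `x` has level `m`
if `x ∈ E m` and `x ∉ E (m-1)` (`m ≥ 1`). So for `m ≥ m0 + 1`, if `x` has level `m` then `τ^i x` has
level `m + i`. Hence for every `j` there is at most one `n` such that `τ^n (b j)` has level `m`. Choose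
`x m` of level `m` for every `m ≥ 1`. Let `m = m0 + r + 2` and, for `t = 1, .., r + 1`,
`y t = x m + x t`. This has level `m`. As `R ≤ E 0` and `z i ∈ E 0`, `y t` is congruent modulo `R` to
some `τ^n (b j)` of level `m`. By the pigeonhole principle two of them, `t < t'`, have the same `j`, so
the same `n`, so `y t' - y t = x t' - x t ∈ R ≤ E (t'-1)`; as `x t ∈ E t ≤ E (t'-1)` this gives
`x t' ∈ E (t'-1)`, contradiction. -/
def S_LEV : Prop := ∀ (A : Type u) [Ring A] [IsNoetherianRing A] (P : Type u) [AddCommGroup P]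
  [Module A P] (τ : P →ₗ[A] P) (b z : ℕ → P) (r s : ℕ) (R : Submodule A P), R.FG →
  Cov τ b z r s R → Module.Finite A P

/-- **FGR**. If `P` is finitely generated and `Cov`, then `A` modulo the annihilator of `P ⧸ R` is
finitely generated as a ring.

Proof. Let `e_1, .., e_d` be generators of `P`, `τ e_l = ∑ t_lm e_m`, `b j = ∑ β_jl e_l` (`j < r`),
`z i = ∑ ζ_il e_l` (`i < s`), and let `B ⊆ A` be the subring (`Algebra.adjoin ℤ`) generated by these
finitely many coefficients. It is noetherian (`Algebra.FiniteType.isNoetherianRing ℤ B`). Let `P_B` be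
the `B`-span of `e_1, .., e_d`. It is stable under `τ` and contains `b j`, `z i`. So by `Cov` every
element of `P ⧸ R` is the class of an element of `P_B`, and `P ⧸ R` is a finitely generated
`B`-module. The map `A → (P ⧸ R)^d`, `a ↦ (a • class of e_l)`, is `B`-linear, and its kernel is the
annihilator of `P ⧸ R`; so `A ⧸ annihilator` is a submodule of a noetherian `B`-module, so a finitely
generated `B`-module, so a finitely generated ring (`Algebra.FiniteType.trans` or by hand). -/
def S_FGR : Prop := ∀ (A : Type u) [CommRing A] (P : Type u) [AddCommGroup P] [Module A P]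
  [Module.Finite A P] (τ : P →ₗ[A] P) (b z : ℕ → P) (r s : ℕ) (R : Submodule A P),
  Cov τ b z r s R → Algebra.FiniteType ℤ (A ⧸ Module.annihilator A (P ⧸ R))

/-- **CH0**. A finitely generated commutative ring in which no positive integer is `0` has a ring
homomorphism to a finitely generated ring of algebraic numbers.

Proof. `ℚ ⊗[ℤ] A` (or the localization of `A` at the positive integers) is not the zero ring and it is
a `ℚ`-algebra of finite type. Take a maximal ideal; the quotient is a finite extension of `ℚ`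
(`finite_of_finite_type_of_isJacobsonRing`), so it has a homomorphism to `AlgebraicClosure ℚ`
(`IsAlgClosed.lift`). The composition `A → AlgebraicClosure ℚ` maps `A` to the subring generated by the
images of the finitely many generators of `A`. -/
def S_CH0 : Prop := ∀ (A : Type u) [CommRing A], Algebra.FiniteType ℤ A →
  (∀ n : ℕ, 0 < n → (n : A) ≠ 0) → ¬ NoAlg A

/-- **PRM**. Proof: induction on `N`, for all `R`. If `N = 1` then `R = ⊤` and the quotient is finite.
Otherwise let `p` be a prime divisor, `N = p N'`, and let `R' = R ⊔ p P`. If `P ⧸ R'` is infinite, done.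
Otherwise let `R'' = {x | p x ∈ R}`; `R ≤ R''` and `x ↦ p x` gives an isomorphism of `P ⧸ R''` with
`R' ⧸ R` (`= (p P + R) ⧸ R`), which is infinite because `P ⧸ R` is infinite and `P ⧸ R'` is finite.
`N' x ∈ R''` for all `x`. Use the induction hypothesis for `R''`, `N'`. -/
def S_PRM : Prop := ∀ (A : Type u) [CommRing A] (P : Type u) [AddCommGroup P] [Module A P]
  (N : ℕ) (R : Submodule A P), 0 < N → (∀ x : P, N • x ∈ R) → Infinite (P ⧸ R) →
  ∃ p : ℕ, p.Prime ∧ ∃ R' : Submodule A P, R ≤ R' ∧ (∀ x : P, p • x ∈ R') ∧ Infinite (P ⧸ R')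

/-- **MAX** takes `S_FGF` as a hypothesis (proved: `Pool.Agent.Helper66.LF.FGF.t`).

Proof. Let `I` be the annihilator of `Q` and `A' = A ⧸ I`, a finitely generated ring, so noetherian;
`p = 0` in `A'`. Suppose the assertion is false. For a maximal ideal `𝔪 ⊇ I` the field `A ⧸ 𝔪` is
finitely generated as a ring, so it is finite (`S_FGF`), so `𝔪^(m+1) Q = 𝔪^m Q` for some `m`. `Q` is a
noetherian `A`-module (finitely generated over `A'`), so `𝔪^m Q` is finitely generated, and by the lemma
of Nakayama (`Submodule.exists_sub_one_mem_and_smul_eq_zero_of_fg_of_le_smul`) there is `a` with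
`a - 1 ∈ 𝔪` and `a 𝔪^m Q = 0`, so `a 𝔪^m ⊆ I`. If `𝔭` is a prime ideal with `I ⊆ 𝔭 ⊆ 𝔪` then
`a ∉ 𝔭`, so `𝔪^m ⊆ 𝔭`, so `𝔪 = 𝔭`. So all prime ideals of `A'` are maximal and `A'` is artinian
(`isArtinianRing_iff_isNoetherianRing_krullDimLE_zero`). `A'` is of finite type over the field
`ZMod p`, so it is finite over `ZMod p` (`Module.finite_iff_isArtinianRing`,
`Mathlib/RingTheory/Jacobson/Artinian.lean`), so `A'` is finite, so `Q` (finitely generated over `A'`)
is finite, contradiction. -/
def S_MAX : Prop := ∀ (A : Type u) [CommRing A] (Q : Type u) [AddCommGroup Q] [Module A Q]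
  [Module.Finite A Q] (p : ℕ) [Fact p.Prime], (∀ x : Q, p • x = 0) →
  Algebra.FiniteType ℤ (A ⧸ Module.annihilator A Q) → Infinite Q →
  ∃ 𝔪 : Ideal A, Finite (A ⧸ 𝔪) ∧ ∀ m : ℕ, (𝔪 ^ (m + 1) • ⊤ : Submodule A Q) ≠ 𝔪 ^ m • ⊤

/-- **FRO**. The orbits of `τ` modulo `𝔪^m P` have at most `C (m + 1)` elements (characteristic `p`).

Proof. `P ⧸ 𝔪 P` is finite (a finitely generated module over the finite ring `A ⧸ 𝔪`) and `𝔪 P` is
stable under `τ`. So there are `n0` and `N0 ≥ 1` with `g P ⊆ 𝔪 P` for `g = τ^(n0+N0) - τ^n0` (two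
powers of the induced endomorphism of a finite group are equal). As `g` is `A`-linear,
`g^m P ⊆ 𝔪^m P`. Let `q = p^k ≥ m` be the smallest such power of `p`, so `q ≤ p (m + 1)`. In `ℤ[X]`,
`(X^(n0+N0) - X^n0)^q = X^((n0+N0) q) - X^(n0 q) + p h(X)` (reduce modulo `p`:
`sub_pow_char_pow`). So `τ^((n0+N0) q) x - τ^(n0 q) x = g^q x - p h(τ) x ∈ 𝔪^m P + R` for all `x`.
Apply this to `τ^t x`: for `n = (n0+N0) q + t`, `τ^n x` is congruent to `τ^(n - N0 q) x`. By strong
induction on `n`, `τ^n x` is congruent to `τ^n' x` with `n' < (n0+N0) q`. Take `C = (n0+N0) p`. -/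
def S_FRO : Prop := ∀ (A : Type u) [CommRing A] (P : Type u) [AddCommGroup P] [Module A P]
  [Module.Finite A P] (τ : P →ₗ[A] P) (p : ℕ) [Fact p.Prime] (𝔪 : Ideal A), Finite (A ⧸ 𝔪) →
  ∀ R : Submodule A P, (∀ x : P, p • x ∈ R) → ∃ C : ℕ, ∀ (m n : ℕ) (x : P),
    ∃ n' < C * (m + 1), (τ ^ n) x - (τ ^ n') x ∈ R ⊔ 𝔪 ^ m • ⊤

/-- **CNT**. Proof. Choose `x i ∈ I i`, `x i ∉ I (i+1)`. Let `m` be large, so that
`r (C (m + 1)) + s < 2^m`. For a subset `T` of `{0, .., m-1}` let `y T = ∑ i ∈ T, x i`. For `T ≠ T'`,
`y T - y T' ∉ I m`: if `i` is the smallest element of the symmetric difference, then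
`y T - y T' = ± x i + (an element of I (i+1))`, so it is not in `I (i+1) ≥ I m`. By `Cov` and the
hypothesis, `y T` is congruent modulo `I m` (`R ≤ I m`) to some `τ^n' (b j)` with `j < r`,
`n' < C (m + 1)`, or to some `z i`, `i < s`. These are at most `r (C (m+1)) + s` classes,
contradiction. -/
def S_CNT : Prop := ∀ (A : Type u) [CommRing A] (P : Type u) [AddCommGroup P] [Module A P]
  (τ : P →ₗ[A] P) (b z : ℕ → P) (r s : ℕ) (R : Submodule A P) (I : ℕ → Submodule A P) (C : ℕ),
  Cov τ b z r s R → (∀ m, R ≤ I m) → (∀ m, I (m + 1) < I m) →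
  (∀ (m n : ℕ) (x : P), ∃ n' < C * (m + 1), (τ ^ n) x - (τ ^ n') x ∈ I m) → False

/-- **ALGN** takes all the goals above as hypotheses (done by helper61). -/
def S_ALGN : Prop := ∀ (A : Type u) [CommRing A] [IsNoetherianRing A], NoAlg A →
  ∀ (P : Type u) [AddCommGroup P] [Module A P] (τ : P →ₗ[A] P) (b z : ℕ → P) (r s : ℕ)
  (R : Submodule A P), R.FG → Cov τ b z r s R → Infinite (P ⧸ R) → False

/-- **EX** takes `S_FGF` as a hypothesis. Examples of rings with `NoAlg`.

Proof. Let `φ` map `A` to `C = Subring.closure s`, `s` finite. (1) `0 = φ n = n`, contradiction.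
(2), for rings without finite residue fields (a field of characteristic `0` is an example): `C` is a
finitely generated ring; take a maximal ideal `𝔫` of it; the field `C ⧸ 𝔫` is finitely generated as a
ring, so it is finite (`S_FGF`); the kernel of `A → C ⧸ 𝔫` is a prime ideal, the quotient is a finite
domain, so the kernel is a maximal ideal with finite residue field. -/
def S_EX : Prop := ∀ (A : Type u) [CommRing A],
  ((∃ n : ℕ, 0 < n ∧ (n : A) = 0) → NoAlg A) ∧
  ((∀ 𝔪 : Ideal A, 𝔪.IsMaximal → Infinite (A ⧸ 𝔪)) → NoAlg A)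

end Pool.Agent.Helper61.LF
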